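import Pool.Agent.Helper52_SN.Swl

set_option autoImplicit false

/-! Number of scalars and widths in the recursion. -/

namespace Pool.Agent.SN.H52

open Pool.Agent.SN Pool.Agent.SN.Net

variable {F : Type} [Field F] [DecidableEq F] {n : ℕ} {k : Fin n → ℕ}

theorem widthAll_mono {a b : ℕ} (h : a ≤ b) : ∀ (c : ℕ) (N : Fin c → Term F k),
    WidthAll a c N → WidthAll b c N
  | 0, _ => fun _ => trivial
  | c + 1, N => fun h1 =>
    ⟨fun j => width_mono h _ (h1.1 j), fun ρ hρ => widthAll_mono h c _ (h1.2 ρ hρ)⟩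

theorem full_len {t : Tree n} (h : t.Full) : t.leaves.length = n := by
  have h1 : t.leaves.toFinset = Finset.univ := by
    ext i
    simp [h.2 i]
  have h2 := List.toFinset_card_of_nodup h.1
  rw [h1, Finset.card_univ, Fintype.card_fin] at h2
  exact h2.symm

theorem leaves_pos : ∀ t : Tree n, 0 < t.leaves.length
  | .leaf _ => Nat.one_pos
  | .node l r => by
    show 0 < (l.leaves ++ r.leaves).length
    rw [List.length_append]
    exact Nat.lt_of_lt_of_le (leaves_pos l) (Nat.le_add_right _ _)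

theorem len_aux (hsel : SelStmt) {K : ℕ} (hK : ∀ i, k i ≤ K) : ∀ (c : ℕ) (W : ℕ)
    (N : Fin c → Term F k), (∀ j, (N j).1.Full) → (∀ j, (N j).2.Width W) →
    (scalars c N).length ≤ (2 * n * (K + 1)) ^ c * (W + 1) ^ (2 ^ (c + 1) - 2) ∧
    WidthAll ((W + 1) ^ 2 ^ c) c N
  | 0, W, N => fun _ _ => by
    refine ⟨?_, trivial⟩
    show ([] : List F).length ≤ _
    simp
  | c + 1, W, N => fun hf hw => by
    obtain ⟨s1, s2, s3⟩ := swl hsel (N 0).2 K W hK (hw 0)
    have hn : (N 0).1.leaves.length = n := full_len (hf 0)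
    have hn0 : 0 < n := by
      have := leaves_pos (N 0).1
      omega
    rw [hn] at s2
    have hrec : ∀ ρ ∈ (N 0).2.sweep.2,
        (scalars c fun j => (⟨(N j.succ).1, (N j.succ).2.slice ρ⟩ : Term F k)).length ≤
          (2 * n * (K + 1)) ^ c * (W * (W + 1) + 1) ^ (2 ^ (c + 1) - 2) ∧
        WidthAll ((W * (W + 1) + 1) ^ 2 ^ c) c
          fun j => (⟨(N j.succ).1, (N j.succ).2.slice ρ⟩ : Term F k) := by
      intro ρ hρ
      exact len_aux hsel hK c (W * (W + 1)) _ (fun j => hf j.succ)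
        (fun j => wid _ ρ W (hw j.succ) (s3 ρ hρ))
    have hle : W * (W + 1) + 1 ≤ (W + 1) ^ 2 := by nlinarith
    refine ⟨?_, ?_, ?_⟩
    · set X : ℕ := (2 * n * (K + 1)) ^ c * ((W + 1) ^ 2) ^ (2 ^ (c + 1) - 2) with hX
      have hX1 : 1 ≤ X := by
        have h1 : 0 < 2 * n * (K + 1) := by positivity
        exact Nat.succ_le_of_lt (Nat.mul_pos (pow_pos h1 _) (by positivity))
      have hb : ∀ ρ ∈ (N 0).2.sweep.2,
          (scalars c fun j => (⟨(N j.succ).1, (N j.succ).2.slice ρ⟩ : Term F k)).length ≤ X := by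
        intro ρ hρ
        refine le_trans (hrec ρ hρ).1 ?_
        exact Nat.mul_le_mul_left _ (Nat.pow_le_pow_left hle _)
      have hlen : (scalars (c + 1) N).length ≤ 1 + (N 0).2.sweep.2.length * X := by
        have h1 : (scalars (c + 1) N).length = (N 0).2.sweep.1.length +
            ((N 0).2.sweep.2.map fun ρ => (scalars c fun j =>
              (⟨(N j.succ).1, (N j.succ).2.slice ρ⟩ : Term F k)).length).sum := by
          show (((N 0).2.sweep.1.map fun s => ∑ j, (N j).2.val s 0) ++
            (N 0).2.sweep.2.flatMap fun ρ => scalars c fun j =>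
              (⟨(N j.succ).1, (N j.succ).2.slice ρ⟩ : Term F k)).length = _
          rw [List.length_append, List.length_map, List.length_flatMap]
        rw [h1]
        refine Nat.add_le_add s1 ?_
        have h2 := List.sum_le_card_nsmul ((N 0).2.sweep.2.map fun ρ => (scalars c fun j =>
              (⟨(N j.succ).1, (N j.succ).2.slice ρ⟩ : Term F k)).length) X (by
            intro x hx
            obtain ⟨ρ, hρ, rfl⟩ := List.mem_map.1 hx
            exact hb ρ hρ)
        simpa using h2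
      have hexp : (2 * n * (K + 1)) ^ (c + 1) * (W + 1) ^ (2 ^ (c + 1 + 1) - 2) =
          2 * n * (K + 1) * (W + 1) ^ 2 * X := by
        have h2 : 2 ≤ 2 ^ (c + 1) := by
          calc 2 = 2 ^ 1 := (pow_one 2).symm
            _ ≤ 2 ^ (c + 1) := Nat.pow_le_pow_right (by norm_num) (by omega)
        have h3 : 2 ^ (c + 1 + 1) - 2 = 2 * (2 ^ (c + 1) - 2) + 2 := by
          rw [pow_succ 2 (c + 1)]
          omega
        rw [hX, h3, pow_succ, pow_add, pow_mul]
        ring
      rw [hexp]
      refine le_trans hlen ?_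
      have h4 : (N 0).2.sweep.2.length * X ≤ n * (K + W * W) * X := Nat.mul_le_mul_right _ s2
      have h5 : K + W * W ≤ (K + 1) * (W + 1) ^ 2 := by
        have e : (K + 1) * (W + 1) ^ 2 = K + W * W + (K * (W * W) + 2 * (K * W) + 2 * W + 1) := by
          ring
        omega
      have h6 : n * (K + W * W) * X ≤ n * ((K + 1) * (W + 1) ^ 2) * X :=
        Nat.mul_le_mul_right _ (Nat.mul_le_mul_left _ h5)
      have h7 : 1 ≤ n * ((K + 1) * (W + 1) ^ 2) * X := by
        have : 0 < n * ((K + 1) * (W + 1) ^ 2) * X := by positivity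
        omega
      calc 1 + (N 0).2.sweep.2.length * X
          ≤ n * ((K + 1) * (W + 1) ^ 2) * X + n * ((K + 1) * (W + 1) ^ 2) * X :=
            Nat.add_le_add h7 (le_trans h4 h6)
        _ = 2 * n * (K + 1) * (W + 1) ^ 2 * X := by ring
    · intro j
      refine width_mono ?_ _ (hw j)
      calc W ≤ W + 1 := Nat.le_succ _
        _ = (W + 1) ^ 1 := (pow_one _).symm
        _ ≤ (W + 1) ^ 2 ^ (c + 1) := Nat.pow_le_pow_right (Nat.succ_pos _) Nat.one_le_two_pow
    · intro ρ hρ
      refine widthAll_mono ?_ c _ (hrec ρ hρ).2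
      calc (W * (W + 1) + 1) ^ 2 ^ c ≤ ((W + 1) ^ 2) ^ 2 ^ c := Nat.pow_le_pow_left hle _
        _ = (W + 1) ^ 2 ^ (c + 1) := by rw [← pow_mul, pow_succ' 2 c]

theorem len (hsel : SelStmt) : LenStmt := by
  intro F _ _ n k K W hK c N hf hw
  exact len_aux hsel hK c W N hf hw

end Pool.Agent.SN.H52
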