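import Pool.Agent.Helper52_SN.Wid

set_option autoImplicit false

/-! Numbers of selected assignments and of relations. -/

namespace Pool.Agent.SN.H52

open Pool.Agent.SN Pool.Agent.SN.Net

variable {F : Type} [Field F] [DecidableEq F] {n : ℕ} {k : Fin n → ℕ}

theorem swl_aux (hsel : SelStmt) {K W : ℕ} (hK : ∀ i, k i ≤ K) : ∀ {t : Tree n} {w : ℕ}
    (N : Net F k t w), N.Width W →
    N.sweep.1.length ≤ w ∧ N.sweep.2.length + W * W ≤ t.leaves.length * (K + W * W) ∧
    ∀ ρ ∈ N.sweep.2, ρ.comb.length ≤ W
  | .leaf i, w, .leaf B => fun hW => by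
    have hs := hsel (Net.leaf (k := k) (i := i) B).val ((List.finRange (k i)).map (PA.single i))
    have hlen : ((List.finRange (k i)).map (PA.single (k := k) i)).length = k i := by simp
    refine ⟨hs.1, ?_, fun ρ hρ => le_trans (hs.2.2.2.2 ρ hρ).2.1 hW⟩
    have h2 := hs.2.1
    rw [hlen] at h2
    have h3 : (Net.leaf (k := k) (i := i) B).sweep.2.length ≤ k i := by
      have : (Net.leaf (k := k) (i := i) B).sweep = Net.select (Net.leaf (k := k) (i := i) B).val
        ((List.finRange (k i)).map (PA.single i)) := rfl
      rw [this]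
      omega
    have h4 := hK i
    have h5 : (Tree.leaf i : Tree n).leaves.length = 1 := rfl
    rw [h5]
    omega
  | .node l r, w, .node M N N' => fun hW => by
    obtain ⟨hW1, hW2, hW3⟩ := hW
    obtain ⟨a1, a2, a3⟩ := swl_aux hsel hK N hW2
    obtain ⟨b1, b2, b3⟩ := swl_aux hsel hK N' hW3
    have hs := hsel (Net.node M N N').val
      (N.sweep.1.flatMap fun s => N'.sweep.1.map fun s' => s.merge s')
    have hdef : (Net.node M N N').sweep = ((Net.select (Net.node M N N').val
      (N.sweep.1.flatMap fun s => N'.sweep.1.map fun s' => s.merge s')).1,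
      N.sweep.2 ++ N'.sweep.2 ++ (Net.select (Net.node M N N').val
      (N.sweep.1.flatMap fun s => N'.sweep.1.map fun s' => s.merge s')).2) := rfl
    have hlen : (N.sweep.1.flatMap fun s => N'.sweep.1.map fun s' => s.merge s').length ≤
        W * W := by
      rw [List.length_flatMap]
      simp only [List.length_map, List.map_const', List.sum_replicate, smul_eq_mul]
      exact Nat.mul_le_mul (le_trans a1 (width_out N hW2)) (le_trans b1 (width_out N' hW3))
    have h5 : (Tree.node l r : Tree n).leaves.length = l.leaves.length + r.leaves.length := by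
      show (l.leaves ++ r.leaves).length = _
      simp
    rw [hdef, h5]
    refine ⟨hs.1, ?_, ?_⟩
    · have h2 := hs.2.1
      simp only [List.length_append]
      rw [Nat.add_mul]
      omega
    · intro ρ hρ
      simp only [List.mem_append] at hρ
      rcases hρ with (h | h) | h
      · exact a3 ρ h
      · exact b3 ρ h
      · exact le_trans (hs.2.2.2.2 ρ h).2.1 hW1

theorem swl (hsel : SelStmt) : SwlStmt := by
  intro F _ _ n k t w N K W hK hW
  obtain ⟨h1, h2, h3⟩ := swl_aux hsel hK N hW
  exact ⟨h1, by omega, h3⟩

end Pool.Agent.SN.H52
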