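import Pool.Agent.Helper14_SN.Stmts

set_option autoImplicit false

/-! Widths of slices. -/

namespace Pool.Agent.SN.H52

open Pool.Agent.SN Pool.Agent.SN.Net

variable {F : Type} {n : ℕ} {k : Fin n → ℕ}

theorem width_mono {a b : ℕ} (h : a ≤ b) : ∀ {t : Tree n} {w : ℕ} (N : Net F k t w),
    N.Width a → N.Width b
  | .leaf _, _, .leaf _ => fun h1 => le_trans (show _ ≤ a from h1) h
  | .node _ _, _, .node _ N N' => fun h1 =>
    ⟨le_trans h1.1 h, width_mono h N h1.2.1, width_mono h N' h1.2.2⟩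

theorem width_out {a : ℕ} : ∀ {t : Tree n} {w : ℕ} (N : Net F k t w), N.Width a → w ≤ a
  | .leaf _, _, .leaf _ => fun h1 => h1
  | .node _ _, _, .node _ _ _ => fun h1 => h1.1

theorem width_fix {a : ℕ} (s : PA k) : ∀ {t : Tree n} {w : ℕ} (N : Net F k t w), N.Width a →
    (N.fix s).Width a
  | .leaf _, _, .leaf _ => fun h1 => h1
  | .node _ _, _, .node _ N N' => fun h1 =>
    ⟨h1.1, width_fix s N h1.2.1, width_fix s N' h1.2.2⟩

theorem width_append [Zero F] {a b : ℕ} : ∀ {t : Tree n} {v w : ℕ} (N : Net F k t v)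
    (N' : Net F k t w), N.Width a → N'.Width b → (N.append N').Width (a + b)
  | .leaf _, _, _, .leaf _, .leaf _ => fun h1 h2 => Nat.add_le_add h1 h2
  | .node _ _, _, _, .node _ N N', .node _ N1 N1' => fun h1 h2 =>
    ⟨Nat.add_le_add h1.1 h2.1, width_append N N1 h1.2.1 h2.2.1,
      width_append N' N1' h1.2.2 h2.2.2⟩

theorem width_lin [Semiring F] {a v : ℕ} (hv : v ≤ a) : ∀ {t : Tree n} {w : ℕ}
    (A : Fin v → Fin w → F) (N : Net F k t w), N.Width a → (N.lin A).Width a
  | .leaf _, _, _, .leaf _ => fun _ => hv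
  | .node _ _, _, _, .node _ _ _ => fun h1 => ⟨hv, h1.2.1, h1.2.2⟩

theorem width_addSmul [Semiring F] {t : Tree n} {a b : ℕ} (N : Net F k t 1) (c : F)
    (N' : Net F k t 1) (h1 : N.Width a) (h2 : N'.Width b) : (N.addSmul c N').Width (a + b) := by
  unfold Net.addSmul
  exact width_lin (le_trans (width_out N h1) (Nat.le_add_right _ _)) _ _ (width_append N N' h1 h2)

theorem width_foldl [Ring F] {t : Tree n} (N : Net F k t 1) (W : ℕ) (hW : N.Width W) :
    ∀ (l : List (F × PA k)) (N0 : Net F k t 1) (a : ℕ), N0.Width a →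
      (l.foldl (fun N' p => N'.addSmul (-p.1) (N.fix p.2)) N0).Width (a + l.length * W)
  | [], N0, a => fun h => by simpa using h
  | p :: l, N0, a => fun h => by
    have h1 := width_foldl N W hW l (N0.addSmul (-p.1) (N.fix p.2)) (a + W)
      (width_addSmul _ _ _ h (width_fix p.2 N hW))
    have h2 : a + (p :: l).length * W = a + W + l.length * W := by
      simp only [List.length_cons]; ring
    rw [List.foldl_cons, h2]
    exact h1

theorem wid : WidStmt := by
  intro F _ n k t N ρ W hN hl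
  have h := width_foldl N W hN ρ.comb (N.fix ρ.at_) W (width_fix _ N hN)
  have h2 : W + ρ.comb.length * W ≤ W * (W + 1) := by nlinarith
  exact width_mono h2 _ h

end Pool.Agent.SN.H52
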